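import Mathlib
import Pool.Agent.MP_e7a50c_co.Final

set_option autoImplicit false

/-! Every iterated extension `G(p_1, …, p_k)` of the triangle has a straight-line grid drawing of
area at most `6 n ^ (1 + log 2 / log 3)`. -/

namespace Pool.Agent.Results.MP_e7a50c_co.GridArea

/-- The graph obtained from `G` by adding, for every edge of `G`, `q` new vertices, each adjacent
to exactly the two ends of that edge. -/
def extend {V : Type} (G : SimpleGraph V) (q : ℕ) : SimpleGraph (V ⊕ (G.edgeSet × Fin q)) where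
  Adj x y := match x, y with
    | .inl u, .inl v => G.Adj u v
    | .inl u, .inr e => u ∈ (e.1 : Sym2 V)
    | .inr e, .inl u => u ∈ (e.1 : Sym2 V)
    | .inr _, .inr _ => False
  symm := ⟨by
    rintro (u | e) (v | f) h
    · exact SimpleGraph.Adj.symm h
    · exact h
    · exact h
    · exact h⟩
  loopless := ⟨by
    rintro (u | e) h
    · exact G.loopless.irrefl u h
    · exact h⟩

/-- `IsIter l V G`: the graph `G` on `V` is `G(p_1, …, p_k)`, where `l = [p_k, …, p_1]`
(for the empty list: the triangle). -/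
inductive IsIter : List ℕ → (V : Type) → SimpleGraph V → Prop
  | triangle : IsIter [] (Fin 3) ⊤
  | step {l : List ℕ} {V : Type} {G : SimpleGraph V} (q : ℕ) (h : IsIter l V G) :
      IsIter (q :: l) (V ⊕ (G.edgeSet × Fin q)) (extend G q)

/-- `X, Y` are the coordinates of the vertices in a straight-line grid drawing of `G`: distinct
vertices have distinct points, no edge contains another vertex, and two different edges meet at
most in a common end. -/
structure IsGridDrawing {V : Type} (G : SimpleGraph V) (X Y : V → ℤ) : Prop where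
  inj : ∀ u v : V, X u = X v → Y u = Y v → u = v
  vert : ∀ u v w : V, G.Adj u v → w ≠ u → w ≠ v →
    ((X w : ℝ), (Y w : ℝ)) ∉ segment ℝ ((X u : ℝ), (Y u : ℝ)) ((X v : ℝ), (Y v : ℝ))
  edges : ∀ u v w x : V, G.Adj u v → G.Adj w x → s(u, v) ≠ s(w, x) → ∀ z : ℝ × ℝ,
    z ∈ segment ℝ ((X u : ℝ), (Y u : ℝ)) ((X v : ℝ), (Y v : ℝ)) →
    z ∈ segment ℝ ((X w : ℝ), (Y w : ℝ)) ((X x : ℝ), (Y x : ℝ)) →
    ∃ y : V, (y = u ∨ y = v) ∧ (y = w ∨ y = x) ∧ z = ((X y : ℝ), (Y y : ℝ))

/-- The data of a graph of the class, on any type. -/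
structure DataV {V : Type} (G : SimpleGraph V) (k : ℕ) (p : ℕ → ℕ) (lev : V → ℕ) : Prop where
  lev_le : ∀ v, lev v ≤ k
  three : {v : V | lev v = 0}.ncard = 3
  adj0 : ∀ u v : V, lev u = 0 → lev v = 0 → u ≠ v → G.Adj u v
  same : ∀ u v : V, G.Adj u v → lev u = lev v → lev u = 0
  parents : ∀ x : V, 1 ≤ lev x → ∃ v w : V, v ≠ w ∧ G.Adj v w ∧ lev v < lev x ∧
    lev w < lev x ∧ G.Adj x v ∧ G.Adj x w ∧ ∀ u : V, G.Adj x u → lev u < lev x → u = v ∨ u = w
  count : ∀ j : ℕ, 1 ≤ j → j ≤ k → ∀ v w : V, G.Adj v w → lev v < j → lev w < j →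
    {x : V | lev x = j ∧ G.Adj x v ∧ G.Adj x w}.ncard = p j

theorem exists_data {l : List ℕ} {V : Type} {G : SimpleGraph V} (h : IsIter l V G)
    (hl : ∀ q ∈ l, 1 ≤ q) :
    ∃ (p : ℕ → ℕ) (lev : V → ℕ), (∀ j, 0 < p j) ∧ DataV G l.length p lev := by
  induction h with
  | triangle =>
    refine ⟨fun _ => 1, fun _ => 0, fun _ => one_pos, ?_, ?_, ?_, ?_, ?_, ?_⟩
    · intro v; simp
    · have : {v : Fin 3 | (0 : ℕ) = 0} = Set.univ := by ext; simp
      rw [this, Set.ncard_univ, Nat.card_eq_fintype_card, Fintype.card_fin]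
    · intro u v _ _ huv
      simpa using huv
    · intro u v _ _; rfl
    · intro x hx; simp at hx
    · intro j h1 h2; simp at h2; omega
  | @step l V G q h ih =>
    obtain ⟨p, lev, hp, D⟩ := ih (fun r hr => hl r (List.mem_cons_of_mem _ hr))
    have hq : 1 ≤ q := hl q List.mem_cons_self
    set k := l.length with hk
    let lev' : V ⊕ (G.edgeSet × Fin q) → ℕ := Sum.elim lev (fun _ => k + 1)
    have e1 : ∀ v, lev' (Sum.inl v) = lev v := fun v => rfl
    have e2 : ∀ e, lev' (Sum.inr e) = k + 1 := fun e => rfl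
    refine ⟨Function.update p (k + 1) q, lev', ?_, ?_, ?_, ?_, ?_, ?_, ?_⟩
    · intro j
      by_cases hj : j = k + 1
      · subst hj; simp; omega
      · rw [Function.update_of_ne hj]; exact hp j
    · rintro (v | e)
      · rw [e1, List.length_cons]; have := D.lev_le v; omega
      · rw [e2, List.length_cons]
    · have h1 : {v | lev' v = 0} = Sum.inl '' {v : V | lev v = 0} := by
        ext x
        rcases x with v | e
        · simp [e1]
        · simp [e2]
      rw [h1, Set.ncard_image_of_injective _ Sum.inl_injective, D.three]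
    · rintro (u | e) (v | f) hu hv huv
      · exact D.adj0 u v hu hv (fun h => huv (by rw [h]))
      · rw [e2] at hv; omega
      · rw [e2] at hu; omega
      · rw [e2] at hu; omega
    · rintro (u | e) (v | f) huv h
      · exact D.same u v huv h
      · rw [e1, e2] at h; have := D.lev_le u; omega
      · rw [e1, e2] at h; have := D.lev_le v; omega
      · exact absurd huv (fun h => h)
    · rintro (x | ⟨⟨e, he⟩, i⟩) hx
      · rw [e1] at hx
        obtain ⟨v, w, g1, g2, g3, g4, g5, g6, g7⟩ := D.parents x hx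
        refine ⟨Sum.inl v, Sum.inl w, fun h => g1 (Sum.inl_injective h), g2, g3, g4, g5, g6, ?_⟩
        rintro (u | f) hu1 hu2
        · rcases g7 u hu1 hu2 with rfl | rfl
          · exact Or.inl rfl
          · exact Or.inr rfl
        · rw [e2, e1] at hu2; have := D.lev_le x; omega
      · induction e using Sym2.ind with
        | _ v w =>
          have hvw : G.Adj v w := he
          refine ⟨Sum.inl v, Sum.inl w, fun h => hvw.ne (Sum.inl_injective h), hvw, ?_, ?_, ?_, ?_,
            ?_⟩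
          · rw [e1, e2]; have := D.lev_le v; omega
          · rw [e1, e2]; have := D.lev_le w; omega
          · exact Sym2.mem_mk_left v w
          · exact Sym2.mem_mk_right v w
          · rintro (u | f) hu1 hu2
            · have hu : u ∈ s(v, w) := hu1
              rcases Sym2.mem_iff.1 hu with rfl | rfl
              · exact Or.inl rfl
              · exact Or.inr rfl
            · exact absurd hu1 (fun h => h)
    · intro j hj1 hj2 v' w' hvw hv hw
      rw [List.length_cons] at hj2
      rcases v' with v | f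
      swap
      · rw [e2] at hv; omega
      rcases w' with w | f
      swap
      · rw [e2] at hw; omega
      rw [e1] at hv hw
      have hvw' : G.Adj v w := hvw
      by_cases hj : j = k + 1
      · subst hj
        rw [Function.update_self]
        have h1 : {x | lev' x = k + 1 ∧ (extend G q).Adj x (Sum.inl v) ∧
            (extend G q).Adj x (Sum.inl w)} =
            (fun i : Fin q => (Sum.inr (⟨s(v, w), hvw'⟩, i) : V ⊕ (G.edgeSet × Fin q))) ''
              Set.univ := by
          ext x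
          rcases x with x | ⟨⟨e, he⟩, i⟩
          · simp only [Set.mem_ofPred_eq, Set.image_univ, Set.mem_range]
            constructor
            · rintro ⟨h1, -, -⟩
              rw [e1] at h1; have := D.lev_le x; omega
            · rintro ⟨i, hi⟩
              exact absurd hi (by simp)
          · simp only [Set.mem_ofPred_eq, Set.image_univ, Set.mem_range, Sum.inr.injEq,
              Prod.mk.injEq]
            constructor
            · rintro ⟨-, h2, h3⟩
              have h2' : v ∈ e := h2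
              have h3' : w ∈ e := h3
              exact ⟨i, Subtype.ext ((Sym2.mem_and_mem_iff hvw'.ne).1 ⟨h2', h3'⟩).symm, rfl⟩
            · rintro ⟨i', h2, -⟩
              have h2' : s(v, w) = e := congrArg Subtype.val h2
              subst h2'
              exact ⟨rfl, Sym2.mem_mk_left v w, Sym2.mem_mk_right v w⟩
        rw [h1, Set.ncard_image_of_injective, Set.ncard_univ, Nat.card_eq_fintype_card,
          Fintype.card_fin]
        intro i i' hii
        simpa using hii
      · rw [Function.update_of_ne hj, ← D.count j hj1 (by omega) v w hvw' hv hw]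
        have h1 : {x | lev' x = j ∧ (extend G q).Adj x (Sum.inl v) ∧
            (extend G q).Adj x (Sum.inl w)} =
            Sum.inl '' {x : V | lev x = j ∧ G.Adj x v ∧ G.Adj x w} := by
          ext x
          rcases x with x | e
          · simp only [Set.mem_ofPred_eq, Set.mem_image, Sum.inl.injEq, exists_eq_right]
            exact Iff.rfl
          · simp only [Set.mem_ofPred_eq, Set.mem_image, reduceCtorEq, and_false, exists_false,
              iff_false, not_and]
            intro h1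
            rw [e2] at h1; omega
        rw [h1, Set.ncard_image_of_injective _ Sum.inl_injective]

/-- Transport to `Fin n`. -/
theorem data_fin {V : Type} {G : SimpleGraph V} {k : ℕ} {p : ℕ → ℕ} {lev : V → ℕ}
    (hp : ∀ j, 0 < p j) (D : DataV G k p lev) {n : ℕ} (e : Fin n ≃ V) :
    Pool.Agent.Wood.Data (G.comap e) k p (lev ∘ e) := by
  refine ⟨fun j _ _ => hp j, fun v => D.lev_le _, ?_, ?_, ?_, ?_, ?_⟩
  · rw [← D.three, ← Set.ncard_image_of_injective _ e.injective]
    congr 1
    ext x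
    simp only [Function.comp_apply, Set.mem_image, Set.mem_ofPred_eq]
    constructor
    · rintro ⟨y, hy, rfl⟩; exact hy
    · intro hx; exact ⟨e.symm x, by simpa using hx, by simp⟩
  · intro u v hu hv huv
    exact D.adj0 _ _ hu hv (fun h => huv (e.injective h))
  · intro u v huv h
    exact D.same _ _ huv h
  · intro x hx
    obtain ⟨v, w, g1, g2, g3, g4, g5, g6, g7⟩ := D.parents (e x) hx
    refine ⟨e.symm v, e.symm w, fun h => g1 (e.symm.injective h), ?_, ?_, ?_, ?_, ?_, ?_⟩
    · simpa [SimpleGraph.comap_adj] using g2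
    · simpa using g3
    · simpa using g4
    · simpa [SimpleGraph.comap_adj] using g5
    · simpa [SimpleGraph.comap_adj] using g6
    · intro u hu1 hu2
      rcases g7 (e u) hu1 hu2 with h | h
      · left; rw [← h]; simp
      · right; rw [← h]; simp
  · intro j h1 h2 v w hvw hv hw
    rw [← D.count j h1 h2 (e v) (e w) hvw hv hw, ← Set.ncard_image_of_injective _ e.injective]
    congr 1
    ext x
    simp only [Function.comp_apply, Set.mem_image, Set.mem_ofPred_eq, SimpleGraph.comap_adj]
    constructor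
    · rintro ⟨y, hy, rfl⟩; exact hy
    · intro hx; exact ⟨e.symm x, by simpa using hx, by simp⟩

/-- The drawing on `Fin n`. -/
theorem drawing_fin {n : ℕ} {G : SimpleGraph (Fin n)} {k : ℕ} {p : ℕ → ℕ} {lev : Fin n → ℕ}
    (D : Pool.Agent.Wood.Data G k p lev) : ∃ X Y : Fin n → ℤ,
    (∀ u v, X u = X v → Y u = Y v → u = v) ∧
    (∀ u v w : Fin n, G.Adj u v → w ≠ u → w ≠ v →
      ((X w : ℝ), (Y w : ℝ)) ∉ segment ℝ ((X u : ℝ), (Y u : ℝ)) ((X v : ℝ), (Y v : ℝ))) ∧
    (∀ u v w x : Fin n, G.Adj u v → G.Adj w x → s(u, v) ≠ s(w, x) → ∀ z : ℝ × ℝ,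
      z ∈ segment ℝ ((X u : ℝ), (Y u : ℝ)) ((X v : ℝ), (Y v : ℝ)) →
      z ∈ segment ℝ ((X w : ℝ), (Y w : ℝ)) ((X x : ℝ), (Y x : ℝ)) →
      ∃ y : Fin n, (y = u ∨ y = v) ∧ (y = w ∨ y = x) ∧ z = ((X y : ℝ), (Y y : ℝ))) ∧
    ∀ v, 0 ≤ X v ∧ X v ≤ 2 * Pool.Agent.Wood.ell k p 0 ∧ 0 ≤ Y v ∧ Y v ≤ 2 ^ (k + 1) := by
  obtain ⟨X, Y, I⟩ := Pool.Agent.Wood.exists_drawing D
  have inj : ∀ u v, X u = X v → Y u = Y v → u = v := fun u v h1 h2 =>
    I.inj u v (D.lev_le u) (D.lev_le v) h1 h2
  have inj' : Function.Injective (fun z : Fin n => ((X z : ℝ), (Y z : ℝ))) := by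
    intro z z' h
    simp only [Prod.mk.injEq] at h
    exact inj z z' (by exact_mod_cast h.1) (by exact_mod_cast h.2)
  have onseg : ∀ u v w : Fin n, G.Adj u v → w ≠ u → w ≠ v →
      ((X w : ℝ), (Y w : ℝ)) ∉ segment ℝ ((X u : ℝ), (Y u : ℝ)) ((X v : ℝ), (Y v : ℝ)) := by
    intro u v w huv hu hv h
    rcases Pool.Agent.Wood.segment_cell h with h | h | h
    · exact hu (inj' h)
    · exact hv (inj' h)
    · exact I.vert w u v (D.lev_le _) huv (D.lev_le _) (D.lev_le _) h
  refine ⟨X, Y, inj, onseg, ?_, ?_⟩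
  · intro u v w x huv hwx hne z hz hz'
    have key : ∀ u v w x : Fin n, G.Adj w x → z = ((X u : ℝ), (Y u : ℝ)) →
        z ∈ segment ℝ ((X w : ℝ), (Y w : ℝ)) ((X x : ℝ), (Y x : ℝ)) →
        (u = w ∨ u = x) := by
      intro u v w x hwx e hz'
      by_contra hcon
      push Not at hcon
      rw [e] at hz'
      exact onseg w x u hwx hcon.1 hcon.2 hz'
    rcases Pool.Agent.Wood.segment_cell hz with h | h | h
    · exact ⟨u, Or.inl rfl, key u v w x hwx h hz', h⟩
    · exact ⟨v, Or.inr rfl, key v u w x hwx h hz', h⟩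
    · rcases Pool.Agent.Wood.segment_cell hz' with h' | h' | h'
      · exact ⟨w, key w x u v huv h' hz, Or.inl rfl, h'⟩
      · exact ⟨x, key x w u v huv h' hz, Or.inr rfl, h'⟩
      · exfalso
        rcases I.disj u v w x huv hwx (D.lev_le _) (D.lev_le _) (D.lev_le _) (D.lev_le _)
          _ _ h h' with ⟨e, e'⟩ | ⟨e, e'⟩
        · exact hne (by rw [e, e'])
        · exact hne (by rw [e, e', Sym2.eq_swap])
  · intro v
    obtain ⟨h1, h2⟩ := I.bX v (D.lev_le v)
    obtain ⟨h3, h4⟩ := I.bY v (D.lev_le v)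
    exact ⟨h1, h2, h3, h4⟩

theorem IsIter.finite {l : List ℕ} {V : Type} {G : SimpleGraph V} (h : IsIter l V G) :
    Finite V := by
  induction h with
  | triangle => infer_instance
  | @step l V G q h ih =>
    haveI := ih
    infer_instance

/-- The drawing of a graph of the class. -/
theorem main {l : List ℕ} {V : Type} {G : SimpleGraph V} (h : IsIter l V G)
    (hl : ∀ q ∈ l, 1 ≤ q) :
    ∃ (W H : ℕ) (X Y : V → ℤ), IsGridDrawing G X Y ∧
        (∀ v, 0 ≤ X v ∧ X v ≤ W ∧ 0 ≤ Y v ∧ Y v ≤ H) ∧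
      ∃ (p : ℕ → ℕ) (lev : Fin (Nat.card V) → ℕ) (G' : SimpleGraph (Fin (Nat.card V)))
        (_ : Pool.Agent.Wood.Data G' l.length p lev),
        ((W : ℝ) + 1) * ((H : ℝ) + 1) =
          (2 * (Pool.Agent.Wood.ell l.length p 0 : ℝ) + 1) * (2 ^ (l.length + 1) + 1) := by
  haveI := h.finite
  obtain ⟨p, lev, hp, D⟩ := exists_data h hl
  let e : Fin (Nat.card V) ≃ V := (Finite.equivFin V).symm
  have D' := data_fin hp D e
  obtain ⟨X, Y, h1, h2, h3, h4⟩ := drawing_fin D'
  have hell := Pool.Agent.Wood.ell_pos l.length p 0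
  refine ⟨(2 * Pool.Agent.Wood.ell l.length p 0).toNat, 2 ^ (l.length + 1), X ∘ e.symm,
    Y ∘ e.symm, ⟨?_, ?_, ?_⟩, ?_, p, lev ∘ e, G.comap e, D', ?_⟩
  · intro u v hu hv
    exact e.symm.injective (h1 _ _ hu hv)
  · intro u v w huv hu hv
    exact h2 (e.symm u) (e.symm v) (e.symm w) (by simpa [SimpleGraph.comap_adj] using huv)
      (fun h => hu (e.symm.injective h)) (fun h => hv (e.symm.injective h))
  · intro u v w x huv hwx hne z hz hz'
    obtain ⟨y, y1, y2, y3⟩ := h3 (e.symm u) (e.symm v) (e.symm w) (e.symm x)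
      (by simpa [SimpleGraph.comap_adj] using huv) (by simpa [SimpleGraph.comap_adj] using hwx)
      (by
        intro h
        apply hne
        have h' := congrArg (Sym2.map e) h
        simpa using h') z hz hz'
    refine ⟨e y, ?_, ?_, ?_⟩
    · rcases y1 with h | h
      · left; rw [h]; simp
      · right; rw [h]; simp
    · rcases y2 with h | h
      · left; rw [h]; simp
      · right; rw [h]; simp
    · simpa using y3
  · intro v
    obtain ⟨g1, g2, g3, g4⟩ := h4 (e.symm v)
    refine ⟨g1, ?_, g3, ?_⟩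
    · rw [Int.toNat_of_nonneg (by omega)]; exact g2
    · push_cast; exact g4
  · have : (((2 * Pool.Agent.Wood.ell l.length p 0).toNat : ℕ) : ℝ) =
        2 * (Pool.Agent.Wood.ell l.length p 0 : ℝ) := by
      have h5 : (((2 * Pool.Agent.Wood.ell l.length p 0).toNat : ℕ) : ℤ) =
          2 * Pool.Agent.Wood.ell l.length p 0 := Int.toNat_of_nonneg (by omega)
      exact_mod_cast h5
    rw [this]
    push_cast
    ring

/-- Every graph `G(p_1, …, p_k)` (all `p_i ≥ 1`) with `n` vertices has a straight-line grid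
drawing in a box of width `W` and height `H` with `(W + 1) (H + 1) ≤ 6 n ^ (1 + log 2 / log 3)`;
in particular the area is `o(n²)` over the whole class. -/
theorem result :
    (∀ (l : List ℕ) (V : Type) (G : SimpleGraph V), IsIter l V G → (∀ q ∈ l, 1 ≤ q) →
      ∃ (W H : ℕ) (X Y : V → ℤ), IsGridDrawing G X Y ∧
        (∀ v, 0 ≤ X v ∧ X v ≤ W ∧ 0 ≤ Y v ∧ Y v ≤ H) ∧
        ((W : ℝ) + 1) * ((H : ℝ) + 1) ≤ 6 * (Nat.card V : ℝ) ^ (1 + Real.log 2 / Real.log 3)) ∧
    (∀ c : ℝ, 0 < c → ∃ N : ℕ, ∀ (l : List ℕ) (V : Type) (G : SimpleGraph V), IsIter l V G →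
      (∀ q ∈ l, 1 ≤ q) → N ≤ Nat.card V →
      ∃ (W H : ℕ) (X Y : V → ℤ), IsGridDrawing G X Y ∧
        (∀ v, 0 ≤ X v ∧ X v ≤ W ∧ 0 ≤ Y v ∧ Y v ≤ H) ∧
        ((W : ℝ) + 1) * ((H : ℝ) + 1) < c * (Nat.card V : ℝ) ^ 2) := by
  constructor
  · intro l V G h hl
    obtain ⟨W, H, X, Y, h1, h2, p, lev, G', D, h3⟩ := main h hl
    refine ⟨W, H, X, Y, h1, h2, ?_⟩
    rw [h3]
    have c1 := Pool.Agent.Wood.count D
    have c2 := Pool.Agent.Wood.pow_le_ell D
    have c3 := Pool.Agent.Wood.ell_pos l.length p 0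
    have c1' : 6 * (Pool.Agent.Wood.ell l.length p 0 : ℝ) ≤ 4 * (Nat.card V : ℝ) := by
      exact_mod_cast c1
    have c2' : (3 : ℝ) ^ l.length ≤ Pool.Agent.Wood.ell l.length p 0 := by exact_mod_cast c2
    have c3' : (1 : ℝ) ≤ Pool.Agent.Wood.ell l.length p 0 := by exact_mod_cast c3
    set n : ℝ := (Nat.card V : ℝ) with hn
    have hn1 : (1 : ℝ) ≤ n := by linarith
    have hn0 : (0 : ℝ) < n := by linarith
    have h4 : (2 * (Pool.Agent.Wood.ell l.length p 0 : ℝ) + 1) * (2 ^ (l.length + 1) + 1) ≤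
        6 * n * 2 ^ l.length := by
      have e1 : 2 * (Pool.Agent.Wood.ell l.length p 0 : ℝ) + 1 ≤ 2 * n := by linarith
      have e2 : (2 : ℝ) ^ (l.length + 1) + 1 ≤ 3 * 2 ^ l.length := by
        have : (1 : ℝ) ≤ 2 ^ l.length := one_le_pow₀ (by norm_num)
        rw [pow_succ]; linarith
      calc (2 * (Pool.Agent.Wood.ell l.length p 0 : ℝ) + 1) * (2 ^ (l.length + 1) + 1)
          ≤ (2 * n) * (3 * 2 ^ l.length) := mul_le_mul e1 e2 (by positivity) (by positivity)
        _ = 6 * n * 2 ^ l.length := by ring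
    have l3 : 0 < Real.log 3 := Real.log_pos (by norm_num)
    have l2 : 0 < Real.log 2 := Real.log_pos (by norm_num)
    have h5 : (2 : ℝ) ^ l.length ≤ n ^ (Real.log 2 / Real.log 3) := by
      have e0 : (2 : ℝ) = 3 ^ (Real.log 2 / Real.log 3) := by
        rw [Real.rpow_def_of_pos (by norm_num : (0 : ℝ) < 3), mul_div_cancel₀ _ l3.ne',
          Real.exp_log (by norm_num)]
      have e1 : (2 : ℝ) ^ l.length = ((3 : ℝ) ^ l.length) ^ (Real.log 2 / Real.log 3) := by
        conv_lhs => rw [e0]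
        rw [← Real.rpow_natCast, ← Real.rpow_natCast, ← Real.rpow_mul (by norm_num),
          ← Real.rpow_mul (by norm_num), mul_comm]
      rw [e1]
      exact Real.rpow_le_rpow (by positivity) (by linarith) (by positivity)
    rw [Real.rpow_add hn0, Real.rpow_one]
    calc (2 * (Pool.Agent.Wood.ell l.length p 0 : ℝ) + 1) * (2 ^ (l.length + 1) + 1)
        ≤ 6 * n * 2 ^ l.length := h4
      _ ≤ 6 * n * n ^ (Real.log 2 / Real.log 3) := mul_le_mul_of_nonneg_left h5 (by positivity)
      _ = 6 * (n * n ^ (Real.log 2 / Real.log 3)) := by ring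
  · intro c hc
    obtain ⟨N, hN⟩ := Pool.Agent.Wood.area_small hc
    refine ⟨N, fun l V G h hl hcard => ?_⟩
    obtain ⟨W, H, X, Y, h1, h2, p, lev, G', D, h3⟩ := main h hl
    refine ⟨W, H, X, Y, h1, h2, ?_⟩
    rw [h3]
    exact hN _ hcard _ _ _ _ D

end Pool.Agent.Results.MP_e7a50c_co.GridArea
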